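import Pool.Agent.H76.GU.Targets
import Pool.Agent.H90.GZ.VLM

/-!
# Row AC1 of the board gu: absolute convergence of the operator on cusp forms (helper95)
-/

set_option autoImplicit false

namespace Pool.Agent.H95.GU

open MeasureTheory Pool.Agent.H34.GM Pool.Agent.H34.GZ Pool.Agent.H34.GU Pool.Agent.H76.GU

lemma aN_smul' {m : ℕ} (hm1 : 1 ≤ m) (c : ℝ) (hc : 0 < c) (z : Mat m) :
    aN (c • z) = c * aN z := by
  unfold aN
  have hm : (m : ℝ) ≠ 0 := by positivity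
  rw [Matrix.det_smul, Fintype.card_fin, abs_mul, abs_of_pos (pow_pos hc m),
    Real.mul_rpow (by positivity) (abs_nonneg _), ← Real.rpow_natCast, ← Real.rpow_mul hc.le,
    mul_one_div_cancel hm, Real.rpow_one]

lemma aN_pos' {m : ℕ} {z : Mat m} (h : z.det ≠ 0) : 0 < aN z :=
  Real.rpow_pos_of_pos (abs_pos.2 h) _

lemma det_ne {m : ℕ} (hm1 : 1 ≤ m) {z : Mat m} (h : 1 ≤ aN z) : z.det ≠ 0 := by
  intro h0
  unfold aN at h
  have hm : (1 / (m : ℝ)) ≠ 0 := by positivity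
  rw [h0, abs_zero, Real.zero_rpow hm] at h
  linarith

lemma tht_lt {m : ℕ} (hRED : T_RED) {z : Mat m} (h : z.det ≠ 0) : Tht z < ⊤ := by
  obtain ⟨γ, hγ, n, a, k, hS⟩ := hRED m z h
  unfold Tht
  refine lt_of_le_of_lt ?_ (ENNReal.ofReal_lt_top (r := skw a))
  exact iInf_le_of_le γ (iInf_le_of_le hγ (iInf_le_of_le n (iInf_le_of_le a
    (iInf_le_of_le k (iInf_le_of_le hS le_rfl)))))

theorem pf_AC1 : T_THT → T_FTH → T_RED → T_GSU → T_AC1 := by
  intro hTHT hFTH hRED hGSU m N _ T D hS F lam mu hF Ψ hΨ g r x hg hr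
  have hm1 := hS.one_le
  have hag : 0 < aN g := aN_pos' hg
  have hTm : Measurable fun z : V m => Tht (mt z) := Pool.Agent.H90.GZ.measurable_tht hGSU m
  have hfin := hFTH m N T D hS F lam mu hF
  obtain ⟨C, hC, hT⟩ := hTHT m hm1 Ψ hΨ r hr
  have hg1 : aN ((aN g)⁻¹ • g) = 1 := by
    rw [aN_smul' hm1 _ (inv_pos.2 hag), inv_mul_cancel₀ hag.ne']
  have hgd : ((aN g)⁻¹ • g).det ≠ 0 := det_ne hm1 hg1.ge
  have hkk : ∀ (h α : Mat m), kk r h α ((aN g)⁻¹ • g) = kk r h α g := by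
    intro h α
    unfold kk
    rw [hg1, Matrix.mul_smul, smul_smul, div_one, ← div_eq_mul_inv]
  have he : (1 : ℝ) < Real.exp 1 := Real.one_lt_exp_iff.2 one_pos
  -- the pointwise bound
  have hpt : ∀ z ∈ D, ∑' α : ZM m, ENNReal.ofReal
      ‖Ψ (kk r (mt z) (cR α) g) * F (mt z) (ac N α x)‖ ≤
      (ENNReal.ofReal C * Tht ((aN g)⁻¹ • g)) *
        ∑ y : VN m N, Tht (mt z) * ENNReal.ofReal ‖F (mt z) y‖ := by
    intro z hz
    obtain ⟨h1, h2⟩ := hS.dom.shell z hz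
    have h3 := hT (mt z) ((aN g)⁻¹ • g) h1 h2 hg1.ge (by rw [hg1]; exact he)
    calc ∑' α : ZM m, ENNReal.ofReal ‖Ψ (kk r (mt z) (cR α) g) * F (mt z) (ac N α x)‖
        ≤ ∑' α : ZM m, ENNReal.ofReal ‖Ψ (kk r (mt z) (cR α) ((aN g)⁻¹ • g))‖ *
            ∑ y : VN m N, ENNReal.ofReal ‖F (mt z) y‖ := by
          refine ENNReal.tsum_le_tsum fun α => ?_
          rw [hkk, norm_mul, ENNReal.ofReal_mul (norm_nonneg _)]
          refine mul_le_mul' le_rfl ?_
          exact Finset.single_le_sum (f := fun y : VN m N => ENNReal.ofReal ‖F (mt z) y‖)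
            (fun _ _ => zero_le) (Finset.mem_univ (ac N α x))
      _ = (∑' α : ZM m, ENNReal.ofReal ‖Ψ (kk r (mt z) (cR α) ((aN g)⁻¹ • g))‖) *
            ∑ y : VN m N, ENNReal.ofReal ‖F (mt z) y‖ := ENNReal.tsum_mul_right
      _ ≤ (ENNReal.ofReal C * Tht (mt z) * Tht ((aN g)⁻¹ • g)) *
            ∑ y : VN m N, ENNReal.ofReal ‖F (mt z) y‖ := mul_le_mul' h3 le_rfl
      _ = (ENNReal.ofReal C * Tht ((aN g)⁻¹ • g)) *
            ∑ y : VN m N, Tht (mt z) * ENNReal.ofReal ‖F (mt z) y‖ := by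
          rw [← Finset.mul_sum]
          ring
  have hFm : ∀ y : VN m N, AEMeasurable (fun z : V m => Tht (mt z) *
      ENNReal.ofReal ‖F (mt z) y‖) ((hm m).restrict D) := by
    intro y
    refine hTm.aemeasurable.mul ?_
    have hc : ContinuousOn (fun z : V m => F (mt z) y) D := by
      refine (hF.cont y).comp (f := fun z : V m => mt z) ?_ ?_
      · exact continuous_id.continuousOn
      · intro z hz
        exact det_ne hm1 (hS.dom.shell z hz).1
    exact (hc.aemeasurable hS.dom.meas).norm.ennreal_ofReal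
  calc ∫⁻ z in D, ∑' α : ZM m, ENNReal.ofReal
        ‖Ψ (kk r (mt z) (cR α) g) * F (mt z) (ac N α x)‖ ∂(hm m)
      ≤ ∫⁻ z in D, (ENNReal.ofReal C * Tht ((aN g)⁻¹ • g)) *
          ∑ y : VN m N, Tht (mt z) * ENNReal.ofReal ‖F (mt z) y‖ ∂(hm m) :=
        setLIntegral_mono' hS.dom.meas hpt
    _ = (ENNReal.ofReal C * Tht ((aN g)⁻¹ • g)) *
          ∑ y : VN m N, ∫⁻ z in D, Tht (mt z) * ENNReal.ofReal ‖F (mt z) y‖ ∂(hm m) := by
        rw [lintegral_const_mul' _ _ (ENNReal.mul_ne_top ENNReal.ofReal_ne_top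
          (tht_lt hRED hgd).ne), lintegral_finsetSum' _ fun y _ => hFm y]
    _ < ⊤ := ENNReal.mul_lt_top (ENNReal.mul_lt_top ENNReal.ofReal_lt_top (tht_lt hRED hgd)) hfin

end Pool.Agent.H95.GU
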